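import Pool.Agent.Helper60_SEP.Stmts

/-!
# MP_ff6f12_co, squad SEP: module FRC (helper39)
-/

set_option autoImplicit false

open SimpleGraph

namespace Pool.Agent.SEP60.H39

open Pool.Agent.RS80 Pool.Agent.RS81 Pool.Agent.SEP60

variable {V : Type} {B : SimpleGraph V} {D : Dat B}

theorem pt_s (x y : D.U) : D.pt x y D.s = D.ref x := by
  unfold Dat.pt
  rw [if_pos rfl]

theorem pt_t (x y : D.U) : D.pt x y (D.t (D.χ x y)) = .inl y := by
  unfold Dat.pt
  rw [if_neg (D.hts _), if_pos rfl]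

/-- restriction of a colouring to a copy of `Q` -/
theorem good_em (hb : Bas D) {R S : SimpleGraph D.Vt} (h : Good B D.F R S) {x y : D.U}
    (hxy : D.Γ.Adj x y) (e : D.E) :
    Good B D.Q (R.comap (D.em x y e) ⊓ D.Q) (S.comap (D.em x y e) ⊓ D.Q) := by
  obtain ⟨hRS, hR, hS⟩ := h
  have hfree : ∀ R' : SimpleGraph D.Vt, B.Free R' → B.Free (R'.comap (D.em x y e) ⊓ D.Q) := by
    intro R' hR' hc
    apply hR'
    obtain ⟨f⟩ := hc
    refine ⟨⟨⟨fun v => D.em x y e (f v), ?_⟩, ?_⟩⟩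
    · intro a b hab
      exact (f.toHom.map_adj hab).1
    · intro a b hab
      exact f.injective (hb.emj x y e hxy hab)
  refine ⟨?_, hfree R hR, hfree S hS⟩
  ext z z'
  constructor
  · rintro (⟨_, h2⟩ | ⟨_, h2⟩) <;> exact h2
  · intro h2
    have h3 := (hb.ind x y e z z' hxy).mpr h2
    rw [← hRS] at h3
    rcases h3 with h3 | h3
    · exact Or.inl ⟨h3, h2⟩
    · exact Or.inr ⟨h3, h2⟩

open Classical in
theorem one (hb : Bas D) {R S : SimpleGraph D.Vt} (h : Good B D.F R S) {x y : D.U}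
    (hxy : D.Γ.Adj x y) : ((R.Adj (.inl x) (.inl y) ↔ R.Adj (.inl x) (D.ref x)) ↔ D.χ x y = true) := by
  have h1 : Sol (pat B D.Q D.r D.nb) D.inc (fun a => decide (R.Adj (.inl x) (D.pt x y a))) := by
    intro e
    refine ⟨_, _, good_em hb h hxy e, fun i => ?_⟩
    have hQ : D.Q.Adj D.r (D.nb i) := (D.nbr _).mpr ⟨i, rfl⟩
    have e1 := hb.emr x y e
    have e2 := hb.emn x y e i
    constructor
    · intro h2
      refine ⟨?_, hQ⟩
      show R.Adj (D.em x y e D.r) (D.em x y e (D.nb i))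
      rw [e1, e2]
      exact of_decide_eq_true h2
    · intro h2
      have h3 : R.Adj (D.em x y e D.r) (D.em x y e (D.nb i)) := h2.1
      rw [e1, e2] at h3
      exact decide_eq_true h3
  have h2 := D.force _ h1 (D.χ x y)
  simp only [pt_s, pt_t, decide_eq_decide] at h2
  exact h2

theorem frc : FrcStmt := by
  intro V B D hb R S h x y z hxy hxz
  have h1 := one hb h hxy
  have h2 := one hb h hxz
  by_cases a : R.Adj (.inl x) (.inl y) <;> by_cases b : R.Adj (.inl x) (.inl z) <;>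
    by_cases c : R.Adj (.inl x) (D.ref x) <;> cases hy : D.χ x y <;> cases hz : D.χ x z <;>
    simp_all

end Pool.Agent.SEP60.H39
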